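import Pool.Agent.H8.PU.Targets

/-!
# PG: gadgets and planarity (MP_64fb07_lc)
-/

set_option autoImplicit false

namespace Pool.Agent.H81.PU

open Pool.Agent.H8.PL Pool.Agent.H8.PU

open scoped Classical in
theorem pf_pg (hCH : Y_CH) (hEM : Y_EM) : Y_PG := by
  intro V _ G M hG
  obtain ⟨X, hX⟩ : ∃ X : Set V, X = {x | 3 ≤ dg G x} := ⟨_, rfl⟩
  rw [← hX]
  have hmem : ∀ x, x ∈ X ↔ 3 ≤ dg G x := fun x => by rw [hX]; exact Iff.rfl
  have h1 : IsPlanar (G.induce X) ↔ IsPlanar (res G X) := by
    refine hEM X V Subtype.val _ _ Subtype.val_injective ?_ ?_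
    · intro a b
      exact ⟨fun h => ⟨h, a.2, b.2⟩, fun h => h.1⟩
    · intro a b h
      exact ⟨⟨a, h.2.1⟩, rfl⟩
  rw [h1]
  have hdg : ∀ u, u ∉ X → dg G u = 1 ∨ dg G u = 2 := by
    intro u hu
    rw [hmem] at hu
    have := hG.pos u
    omega
  refine hCH V G X (fun x => if dg G x = 2 then 1 else 2) ?_ ?_
  · intro u hu
    rcases hdg u hu with h | h
    · -- degree one
      have e : {v | G.Adj u v ∧ (v ∈ X ∨ (if dg G v = 2 then 1 else 2) <
          (if dg G u = 2 then 1 else 2))} = G.neighborSet u := by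
        ext v
        simp only [Set.mem_setOf_eq, SimpleGraph.mem_neighborSet]
        refine ⟨fun h => h.1, fun hv => ⟨hv, ?_⟩⟩
        have h2 := hG.leaf u h v hv
        rw [hmem, h]
        by_cases h3 : dg G v = 2
        · right
          rw [if_pos h3]
          simp
        · left
          omega
      rw [e]
      exact h
    · have e : {v | G.Adj u v ∧ (v ∈ X ∨ (if dg G v = 2 then 1 else 2) <
          (if dg G u = 2 then 1 else 2))} = {y | G.Adj u y ∧ 3 ≤ dg G y} := by
        ext v
        simp only [Set.mem_setOf_eq, hmem, h, if_true]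
        constructor
        · rintro ⟨h3, h4 | h4⟩
          · exact ⟨h3, h4⟩
          · exfalso
            split_ifs at h4 <;> omega
        · rintro ⟨h3, h4⟩
          exact ⟨h3, Or.inl h4⟩
      rw [e]
      exact (hG.mid u h).2
  · intro u hu w hw huw
    rcases hdg u hu with h | h <;> rcases hdg w hw with h' | h'
    · have := hG.leaf u h w huw
      omega
    · simp only [h, h']
      decide
    · simp only [h, h']
      decide
    · exfalso
      obtain ⟨m1, m2⟩ := hG.mid u h
      unfold nb at m1
      have hsub : {y | G.Adj u y ∧ dg G y = 1} ∪ {y | G.Adj u y ∧ 3 ≤ dg G y} ⊆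
          G.neighborSet u \ {w} := by
        rintro y (⟨h3, h4⟩ | ⟨h3, h4⟩)
        · refine ⟨h3, ?_⟩
          rintro rfl
          omega
        · refine ⟨h3, ?_⟩
          rintro rfl
          omega
      have hdis : Disjoint {y | G.Adj u y ∧ dg G y = 1} {y | G.Adj u y ∧ 3 ≤ dg G y} := by
        rw [Set.disjoint_left]
        rintro y ⟨-, h3⟩ ⟨-, h4⟩
        omega
      have h5 := Set.ncard_le_ncard hsub (Set.toFinite _)
      rw [Set.ncard_union_eq hdis (Set.toFinite _) (Set.toFinite _), m1, m2,
        Set.ncard_diff_singleton_of_mem (show w ∈ G.neighborSet u from huw)] at h5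
      unfold dg at h
      omega

end Pool.Agent.H81.PU
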